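import Mathlib
import Pool.Agent.H84.CoSobDefs
import Pool.Agent.H84.CoSob

set_option autoImplicit false

namespace Pool.Agent.Results.MP_8d849c_gt.Counter

open Pool.Agent.H84.CoSobDefs

/-- A family of co-sober spaces whose product is not co-sober. -/
theorem result : ∃ (I : Type) (X : I → Type) (_ : ∀ i, TopologicalSpace (X i)),
    (∀ i, CoSober (X i)) ∧ ¬ CoSober (∀ i, X i) :=
  ⟨_, H84.CoSob.ZU, inferInstance, H84.CoSob.coSober_ZU, H84.CoSob.not_coSober_pi⟩

end Pool.Agent.Results.MP_8d849c_gt.Counter
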